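import Pool.Agent.H295R3.NA.Stmts

set_option autoImplicit false

open Finset ArithmeticFunction Filter Topology

namespace Pool.Agent.H544R3.NA

open Pool.Agent.H295R3.NA

theorem pi1_le (y : ℕ) : H343E.pi1 y ≤ (Nat.primeCounting y : ℝ) := by
  unfold H343E.pi1
  have : ((Icc 1 y).filter (fun p => p.Prime)).card ≤ Nat.primeCounting y := by
    rw [Nat.primeCounting, Nat.primeCounting', Nat.count_eq_card_filter_range]
    refine card_le_card fun p hp => ?_
    simp only [mem_filter, mem_Icc, mem_range] at hp ⊢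
    exact ⟨by omega, hp.2⟩
  exact_mod_cast this

theorem cheb : ∃ Y : ℝ, ∀ y : ℕ, Y ≤ y →
    H343E.pi1 y ≤ (Real.log 4 + 1) * y / Real.log y := by
  obtain ⟨Y, hY⟩ := eventually_atTop.1 (Chebyshev.eventually_primeCounting_le one_pos)
  refine ⟨Y, fun y hy => (pi1_le y).trans ?_⟩
  have := hY y hy
  rwa [Nat.floor_natCast] at this

theorem card_ap (l y : ℕ) (hl : l.Prime) :
    (((Icc 1 y).filter (fun q : ℕ => q.Prime ∧ l ∣ q + 1)).card : ℝ) ≤
      H343E.piAP y l (l - 1) := by
  unfold H343E.piAP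
  have : ((Icc 1 y).filter (fun q : ℕ => q.Prime ∧ l ∣ q + 1)).card ≤
      ((Icc 1 y).filter (fun p => p.Prime ∧ p ≡ (l - 1) [MOD l])).card := by
    refine card_le_card fun q hq => ?_
    simp only [mem_filter, mem_Icc] at hq ⊢
    refine ⟨hq.1, hq.2.1, ?_⟩
    refine Nat.ModEq.add_right_cancel' 1 ?_
    rw [Nat.sub_add_cancel hl.one_le]
    exact (Nat.modEq_zero_iff_dvd.2 hq.2.2).trans (Nat.modEq_zero_iff_dvd.2 dvd_rfl).symm
  exact_mod_cast this

theorem card_mult (l y : ℕ) (hl : l.Prime) :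
    (((Icc 1 y).filter (fun q : ℕ => q.Prime ∧ l ∣ q + 1)).card : ℝ) ≤ ((y : ℝ) + 1) / l := by
  have h1 : ((Icc 1 y).filter (fun q : ℕ => q.Prime ∧ l ∣ q + 1)).card ≤ (y + 1) / l := by
    rw [← Nat.Ioc_filter_dvd_card_eq_div (y + 1) l]
    refine Finset.card_le_card_of_injOn (fun q => q + 1) ?_ ?_
    · intro q hq
      have hq' := Finset.mem_filter.1 (Finset.mem_coe.1 hq)
      have h2 := Finset.mem_Icc.1 hq'.1
      exact Finset.mem_coe.2 (Finset.mem_filter.2
        ⟨Finset.mem_Ioc.2 ⟨Nat.succ_pos q, Nat.succ_le_succ h2.2⟩, hq'.2.2⟩)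
    · intro a _ b _ h
      exact Nat.succ_injective h
  have h3 : (((y + 1) / l : ℕ) : ℝ) ≤ ((y : ℝ) + 1) / l := by
    have := @Nat.cast_div_le ℝ _ _ _ (y + 1) l
    push_cast at this
    exact this
  exact le_trans (by exact_mod_cast h1) h3

theorem taskPSI : TaskPSI := by
  intro hP ε hε
  obtain ⟨x0, hx0⟩ := hP
  obtain ⟨Y, hY⟩ := cheb
  have hlog4 : 0 < Real.log 4 + 1 := by
    have := Real.log_nonneg (show (1 : ℝ) ≤ 4 by norm_num)
    linarith
  -- large `y`
  obtain ⟨y1, hy1⟩ : ∃ y1 : ℕ, ∀ y : ℕ, y1 ≤ y → x0 ≤ y ∧ Y ≤ y ∧ 1 ≤ y ∧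
      max 1 (4 / ε) ≤ Real.log y := by
    have h1 : ∀ᶠ y : ℕ in atTop, max 1 (4 / ε) ≤ Real.log y :=
      (Real.tendsto_log_atTop.comp tendsto_natCast_atTop_atTop).eventually_ge_atTop _
    have h2 : ∀ᶠ y : ℕ in atTop, Y ≤ y := tendsto_natCast_atTop_atTop.eventually_ge_atTop _
    obtain ⟨y1, h⟩ := eventually_atTop.1
      ((eventually_ge_atTop x0).and (h2.and ((eventually_ge_atTop 1).and h1)))
    exact ⟨y1, fun y hy => h y hy⟩
  refine ⟨⌈2 * (Real.log 4 + 1) / ε⌉₊ + 2, y1 * Real.log (y1 + 1) + 1, ?_, ?_⟩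
  · have : 0 ≤ Real.log ((y1 : ℝ) + 1) := Real.log_nonneg (by
      have : (0 : ℝ) ≤ y1 := Nat.cast_nonneg _
      linarith)
    positivity
  intro l hl hl0 y
  have hterm : ∀ B : ℝ, (y : ℝ) ≤ B → 1 ≤ B →
      ∑ q ∈ (Icc 1 y).filter (fun q : ℕ => q.Prime ∧ l ∣ q + 1), Real.log q ≤
        (((Icc 1 y).filter (fun q : ℕ => q.Prime ∧ l ∣ q + 1)).card : ℝ) * Real.log B := by
    intro B hB _
    rw [← nsmul_eq_mul, ← Finset.sum_const]
    refine Finset.sum_le_sum fun q hq => ?_
    have hq1 := Finset.mem_Icc.1 (Finset.mem_filter.1 hq).1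
    have h0 : (0 : ℝ) < q := by exact_mod_cast hq1.1
    have h1 : (q : ℝ) ≤ y := by exact_mod_cast hq1.2
    exact Real.log_le_log h0 (h1.trans hB)
  have hyy : (0 : ℝ) ≤ y := Nat.cast_nonneg _
  rcases lt_or_ge y y1 with hlt | hge
  · -- small `y`
    have hB : (y : ℝ) ≤ (y1 : ℝ) + 1 := by
      have : (y : ℝ) ≤ y1 := by exact_mod_cast hlt.le
      linarith
    have h1 := hterm ((y1 : ℝ) + 1) hB (by
      have : (0 : ℝ) ≤ y1 := Nat.cast_nonneg _
      linarith)
    have h2 : (((Icc 1 y).filter (fun q : ℕ => q.Prime ∧ l ∣ q + 1)).card : ℝ) ≤ y1 := by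
      have h3 : ((Icc 1 y).filter (fun q : ℕ => q.Prime ∧ l ∣ q + 1)).card ≤ y := by
        refine (Finset.card_filter_le _ _).trans ?_
        simp
      exact_mod_cast h3.trans hlt.le
    have h4 : 0 ≤ Real.log ((y1 : ℝ) + 1) := Real.log_nonneg (by
      have : (0 : ℝ) ≤ y1 := Nat.cast_nonneg _
      linarith)
    have h5 := mul_le_mul_of_nonneg_right h2 h4
    have h6 : 0 ≤ ε * y := by positivity
    linarith
  · obtain ⟨ha, hb, hc, hd⟩ := hy1 y hge
    have hy1' : (1 : ℝ) ≤ y := by exact_mod_cast hc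
    have hL1 : 1 ≤ Real.log y := (le_max_left _ _).trans hd
    have hL2 : 4 / ε ≤ Real.log y := (le_max_right _ _).trans hd
    have hLpos : 0 < Real.log y := by linarith
    have hinv : 1 / Real.log y ≤ ε / 4 := by
      rw [div_le_iff₀ hLpos]
      rw [div_le_iff₀ hε] at hL2
      linarith
    have h1 := hterm y le_rfl hy1'
    have hC0 : 0 ≤ (y1 : ℝ) * Real.log (y1 + 1) := by
      have : 0 ≤ Real.log ((y1 : ℝ) + 1) := Real.log_nonneg (by
        have : (0 : ℝ) ≤ y1 := Nat.cast_nonneg _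
        linarith)
      positivity
    suffices h : (((Icc 1 y).filter (fun q : ℕ => q.Prime ∧ l ∣ q + 1)).card : ℝ) * Real.log y ≤
        ε * y by linarith
    rcases le_or_gt ((l : ℝ)) (Real.log y ^ 2) with hll | hll
    · -- primes in progressions
      have hcop : (l - 1).Coprime l := by
        rw [Nat.coprime_comm]
        refine (Nat.Prime.coprime_iff_not_dvd hl).2 fun hdvd => ?_
        have := Nat.le_of_dvd (by have := hl.two_le; omega) hdvd
        have := hl.two_le
        omega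
      have h2 := hx0 y ha l hl.one_le hll (l - 1) (by have := hl.two_le; omega) hcop
      have h3 := (abs_le.1 h2).2
      have h4 := card_ap l y hl
      have h5 := hY y hb
      rw [Nat.totient_prime hl, Nat.cast_sub hl.one_le, Nat.cast_one] at h3
      have hl1 : 2 * (Real.log 4 + 1) / ε ≤ (l : ℝ) - 1 := by
        have h6 : 2 * (Real.log 4 + 1) / ε ≤ (⌈2 * (Real.log 4 + 1) / ε⌉₊ : ℝ) := Nat.le_ceil _
        have h7 : ((⌈2 * (Real.log 4 + 1) / ε⌉₊ + 2 : ℕ) : ℝ) ≤ l := by exact_mod_cast hl0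
        push_cast at h7
        linarith
      have hlpos : 0 < (l : ℝ) - 1 := lt_of_lt_of_le (by positivity) hl1
      have h8 : H343E.pi1 y / ((l : ℝ) - 1) * Real.log y ≤ ε / 2 * y := by
        have h9 : H343E.pi1 y * Real.log y ≤ (Real.log 4 + 1) * y := by
          rwa [le_div_iff₀ hLpos] at h5
        rw [div_mul_eq_mul_div, div_le_iff₀ hlpos]
        have h10 : 2 * (Real.log 4 + 1) ≤ ((l : ℝ) - 1) * ε := by
          rwa [div_le_iff₀ hε] at hl1
        nlinarith
      have h11 : (y : ℝ) / Real.log y ^ 6 * Real.log y ≤ ε / 4 * y := by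
        have h12 : (y : ℝ) / Real.log y ^ 6 * Real.log y = y / Real.log y ^ 5 := by
          field_simp
        rw [h12]
        have h13 : (1 : ℝ) / Real.log y ^ 5 ≤ 1 / Real.log y := by
          apply one_div_le_one_div_of_le hLpos
          calc Real.log y = Real.log y ^ 1 := (pow_one _).symm
            _ ≤ Real.log y ^ 5 := pow_le_pow_right₀ hL1 (by norm_num)
        have h14 := mul_le_mul_of_nonneg_left (h13.trans hinv) hyy
        calc (y : ℝ) / Real.log y ^ 5 = y * (1 / Real.log y ^ 5) := by ring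
          _ ≤ y * (ε / 4) := h14
          _ = ε / 4 * y := by ring
      have h15 : (((Icc 1 y).filter (fun q : ℕ => q.Prime ∧ l ∣ q + 1)).card : ℝ) ≤
          H343E.pi1 y / ((l : ℝ) - 1) + y / Real.log y ^ 6 := by linarith
      have h16 := mul_le_mul_of_nonneg_right h15 hLpos.le
      have h17 : 0 ≤ ε * y := by positivity
      nlinarith
    · -- trivial bound
      have h2 := card_mult l y hl
      have hl' : (0 : ℝ) < Real.log y ^ 2 := by positivity
      have h3 : ((y : ℝ) + 1) / l ≤ (y + 1) / Real.log y ^ 2 :=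
        div_le_div_of_nonneg_left (by positivity) hl' hll.le
      have h4 := mul_le_mul_of_nonneg_right (h2.trans h3) hLpos.le
      have h5 : ((y : ℝ) + 1) / Real.log y ^ 2 * Real.log y = (y + 1) * (1 / Real.log y) := by
        field_simp
      rw [h5] at h4
      have h6 : ((y : ℝ) + 1) * (1 / Real.log y) ≤ (2 * y) * (ε / 4) :=
        mul_le_mul (by linarith) hinv (by positivity) (by positivity)
      have h7 : 0 ≤ ε * y := by positivity
      linarith

end Pool.Agent.H544R3.NA
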